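import Mathlib
import Pool.Agent.Helper7.CopulaFrechet

open MeasureTheory unitInterval Pool.Agent.Helper7.Copula

/-- For every `n ≥ 3`: `s_n < 1`, and the supremum `s_n` is attained, i.e. some `n`-copula `C`
satisfies `λ_n {x : C x = W^{n-1} x} = s_n`. -/
theorem Pool.Agent.Results.MP_2d7e0f_pr.Attained.result (n : ℕ) (hn : 3 ≤ n) :
    s n < 1 ∧ ∃ C : (Fin n → I) → I, IsCopula n C ∧
      volume {x : Fin n → I | (C x : ℝ) = W n x} = s n := by
  obtain ⟨C, hC, h⟩ := exists_attain n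
  exact ⟨s_lt_one n hn, C, hC, h.symm⟩
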